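import Pool.Agent.R12.Fn

set_option autoImplicit false

/-!
# Two irreducible characters of a finite solvable group cover all the primes of the degrees

## The proof

`G` is a finite solvable group, `F = Fit G` its Fitting subgroup, `H = G / F`, `O_p = O_p(G)`. If
`|H|` is odd the theorem is `Nap.deg2`; so let `2` divide `|H|` (`main3` in R12/As.lean). By the
theorem of Ito and Michler (its easy half) a prime of `ρ(G)` divides `|H|`, or it is in `τ` = the
primes `p` not dividing `|H|` with `O_p` not abelian. The two characters are a high and a low one.

MODULES. For the primes `p` dividing `|G|` let the `X_i` be a maximal independent family of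
irreducible submodules of the module of the linear characters of order `p` of `O_p` (for `p`
dividing `|H|`: of those which are trivial on `O_p ∩ Φ(G)`). `H` is faithful on the sum of all the
`X_i`. `X_i` is the direct sum of blocks `W_ij`, which `H` permutes transitively; the stabilizer
`N_ij` of a block acts quasi-primitively on it (its abelian normal subgroups generate fields), and
`U_ij` is a maximal abelian normal subgroup of `N_ij` modulo the kernel. `A` is the intersection
of all `U_ij`, an abelian normal subgroup of `H`. A prime `r` is of type B at `X_i` if the Sylow
`r`-subgroups are trivial on `X_i`, or fix all the blocks, `N_ij / U_ij` is abelian and `r` does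
not divide `|U_ij|`. `B` is the set of the odd prime divisors of `|H|` which are of type B at all
`X_i`. For `r` in `B` and a Sylow subgroup `R`: `r` does not divide `|A|`, `A R` is normal in `H`,
and `A^r = [A, R]` is not trivial and does not depend on `R` (Nas/Ha.lean).

TWO SOURCES OF CHARACTERS. High (R12/Gz.lean, `highT`): let `T_i ∈ X_i`, `S_T` the stabilizer of
all `T_i` in `H`. By Gaschuetz (`F / Φ(G)` has a complement) the linear character which belongs to
the `T_i` extends to its stabilizer, and by Gallagher a multiple of `|H : S_T| φ(1)` is a degree
of `G` for EVERY irreducible character `φ` of `S_T`. Low (R12/Cg.lean, `lowg`): the same for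
characters `s_p` of the `O_p`, `p` in `τ` (coprime extension), with the common stabilizer `S_s`;
the degree is also divisible by the `s_p(1)`. If no `φ(1)` is divisible by `r`, then by Ito the
Sylow `r`-subgroup of the stabilizer is normal (`ito2`).

GENERIC VECTORS. Let `Δ` be a set of blocks of `X_i`, `v_j ∈ W_ij`, and consider the sums over `Δ`
of the `k_j v_j`, for arbitrary `k_j ∈ N_ij`. For primes `r ≥ 5` not of type B at `X_i` one can
choose `Δ`, `v` such that no Sylow `r`-subgroup of `H` fixes any of these sums (`gen` in
Nfv/Gn.lean). This uses: a set of points which no nontrivial Sylow `r`-subgroup of a solvable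
transitive permutation group stabilizes (Nfv/Pl.lean), and a vector which no Sylow `r`-subgroup of
a quasi-primitive solvable linear group fixes if `L / U` is not abelian (counting fixed vectors,
with the structure of `E / U`, Nfv/Cn.lean). For `r = 3` (R12/Md3.lean) one of the following holds
for the module: (A) the same is true for all `r ≥ 3`; (B) the Sylow 3-subgroups move blocks; the
only trouble are the primitive groups of degree 8 (Nth/P3.lean), and there are THREE sums `x0`,
`x1`, `x2` (over `D0`, over a larger set `D1`, and over `D1` with one component moved) with: if
Sylow 3-subgroups `T_i` fix `x_i` then `T_1`, `T_2` fix `x0` and are not both `T_0` (`gen3c` in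
Nth/G3.lean); (C) the Sylow 3-subgroups fix the blocks, the number `n_3(H)` of the Sylow
3-subgroups of `H` is EVEN, and no Sylow 2-subgroup of `H` fixes a nonzero vector of `X_i`
(R12/Cn3, Cn5, Gb3.lean: in a block which is not of type (A) a Sylow 3-subgroup acts on a 2-group
`P`, not trivially, and `[P, T]` contains `-1`).

THE PRIMES OF TAU (R12/Lc.lean, Lo, Lk, Br: `tbst`). Let `p` be in `τ`, `β : V × V → U` the
commutator map of `O_p` into an irreducible central section, `θ(l, m)` the characters given by a
linear form `l ≠ 0` on `U` and a form `m` on the radical of `l ∘ β`. Let `Y` be an `A`-homogeneous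
component of the dual of `U`. Case X: the low character is `s(l) = θ(l, m_l)`, for ANY `l ≠ 0` in
`Y` (`p` divides its degree), the high one is linear. Case Y: all high characters `θ(l', m)` are
used, the low one is `1`. In both cases the high characters still contain a free vector of every
`X_i`, except for some `X_i` with one block (semilinear), where the fixed part of `m` already does
what a generic vector does. In case X a prime `r` in `B` is covered by the pair or some subgroup
`A^r` acts irreducibly on a one-block module, and `m_l` is chosen there by a counting argument
(R12/Sp3.lean).

THE PRIMES OF B: GLUEING (Nan/Ar.lean, `fin_glue3`). There are conjugating elements `k ∈ A` for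
the components of the high vectors such that for ALL choices of the low `l` and all `r` in `B`: no
Sylow `r`-subgroup fixes the high character, or there is no Sylow `r`-subgroup `R` of `H` in `S_s`
with `A^r ∩ S_s = 1`. In the second case either `r` divides `|H : S_s|`, or `A^r ∩ S_s` is not
trivial, and then `r` divides the degree `ψ(1)` of a suitable irreducible character `ψ` of `S_s`:
take a linear character of `A ∩ S_s` which is fixed by no Sylow `r`-subgroup of `S_s`, for all
these `r` together, and a character over it (R12/Lw.lean, `lw0`). `lw` does this with one more
prime `c`, if no Sylow `c`-subgroup is normal in `S_s`, `c` does not divide `|A|`, and `c = 2` or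
all Sylow `c`-subgroups have the same image in the automorphism group of `A`: if the Sylow
`c`-subgroups act on `A ∩ S_s`, the greedy choice of the linear character starts with one which
they do not fix; if they centralize it, use the theorem of Ito for `C / (A ∩ S_s)`, `C` the
centralizer of `A ∩ S_s`, and a linear character of `C` (three subgroups lemma). So `B ∪ {c}` is
covered if `l` can be chosen such that no Sylow `c`-subgroup of `H` is contained and normal in
`S_s`.

THE PRIME 2 (R12/T2.lean, `t2`; As.lean, `lo_2`, `lo2`). If `O_2(H) ≠ 1` then `2` divides `|H :
S_T|`. If `O_2(H) = 1`, such an `l = (l_p)` exists for `c = 2`: let `M` be the stabilizer of all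
the components `Y_p`. If a 2-element of `M` is not trivial on some `Y_p`, some 2-element maps some
`l_p ≠ 0` to `- l_p`, and the stabilizer of this `l` has even index. Otherwise let `P` be a Sylow
2-subgroup of `H`, contained and normal in `S_s`. `P ≤ M`, and `P` contains all 2-elements of `M`,
so it is normal in `M ≥ A`, it centralizes `A`; so all the 2-elements of `H` centralize `A`, they
stabilize the `Y_p`, they are in `P`: `O_2(H) ≠ 1`, a contradiction.

THE PRIME 3 (As.lean, `main3`). (1) If `3` does not divide `|H|`, or `3` is in `B`, or `O_3(H) ≠
1` (then `3` divides `|H : S_T|`): nothing is left to do. (2) If some `X_i`, not of type B for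
`3`, is in case (A), the high character covers `3`. (3) If some `X_i` is in case (B): one of the
three high characters can be taken with `3` (`three_vec` in R12/Th3.lean): otherwise, by Ito, each
of the three stabilizers `S_0`, `S_1`, `S_2` contains exactly one Sylow 3-subgroup `T_i` of `H`;
`T_1` and `T_2` fix `x0`, so they are in `S_0`, so `T_1 = T_2 = T_0`, which is excluded. (4)
Otherwise some `X_i` is in case (C), and the Sylow 3-subgroups fix all blocks of all modules. The
prime `2` is covered by the high character, so the low one has to cover `B` and `3` (`lw` for `c =
3`; the Sylow 3-subgroups have the same image in the automorphism group of `A`, because the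
automorphisms of a finite field commute: `hLA`). The vectors `l` exist by `t3` (R12/T3.lean): let
`L` be the subgroup generated by the Sylow 3-subgroups of `H`; `2` divides `|L|`, as `n_3(H)` is
even. Suppose that for every `l` a Sylow 3-subgroup of `H` fixes `l` and is normal in its
stabilizer. Then `L` stabilizes all `Y_p`, and for fixed `p` and fixed `l_q`, `q ≠ p`, every
nonzero vector of `Y_p` is fixed by exactly one Sylow 3-subgroup of the group `K` which fixes the
`l_q`. If these act on `Y_p`, of order `p^d`, the nonzero vectors are partitioned into the fixed
spaces, so `n_3(K) (p^b - 1) = p^d - 1`, `b < d`, `d ≥ 3`, and a primitive prime divisor `z` of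
`p^d - 1` (Zsigmondy) divides `|K|`. An element of order `z` is irreducible on `Y_p`, and this
forces that `L` acts on `Y_p` as a semilinear group (`tz_abq`), so that the 3-elements and the
2-elements of `L` commute on `Y_p`. As `O_3(H) = 1`, the kernel of `L` on all `Y_p` is central in
`L`, so they commute in `L`. So a Sylow 2-subgroup of `L` is central in `L`, which is generated by
3-elements, so it is trivial: a contradiction.
-/

namespace Pool.Agent.Results.MP_2b2d69_al.TwoCharacters

/-- The degrees of the irreducible complex representations (characters) of `G`. -/
def Deg (G : Type) [Group G] : Set ℕ :=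
  {n | ∃ ρ : Representation ℂ G (Fin n → ℂ), ρ.IsIrreducible}

/-- The set `ρ(G)` of the primes which divide the degree of an irreducible character of `G`. -/
def Rho (G : Type) [Group G] : Set ℕ :=
  {p | p.Prime ∧ ∃ d ∈ Deg G, p ∣ d}

/-- Every finite solvable group `G` has two irreducible characters `χ₁`, `χ₂` (of the degrees `m`
and `n`) such that `ρ(G)` is the set of the prime divisors of `χ₁(1) χ₂(1)`. -/
theorem result (G : Type) [Group G] [Finite G] (hG : Group.IsSolvable G) :
    ∃ m ∈ Deg G, ∃ n ∈ Deg G, Rho G = {p | p.Prime ∧ p ∣ m * n} := by
  obtain ⟨m, hm, n, hn, h⟩ := Pool.Agent.R12.deg_two hG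
  refine ⟨m, hm, n, hn, Set.ext fun p => ⟨fun hp => ⟨hp.1, h p hp.1 hp.2⟩, fun hp => ⟨hp.1, ?_⟩⟩⟩
  rcases hp.1.dvd_mul.1 hp.2 with h1 | h1
  · exact ⟨m, hm, h1⟩
  · exact ⟨n, hn, h1⟩

end Pool.Agent.Results.MP_2b2d69_al.TwoCharacters
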